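import Pool.Agent.Lib.MP_b5021c_nt.IfaceEV
import Pool.Agent.Lib.MP_b5021c_nt.B.H16.Lsv

/-!
# Board b5, row EV_LOD: the six loads in class `V`
-/

namespace Pool.Agent.B5.H96

open Polynomial
open Pool.Agent.MP_b5021c_nt (Eis)
open Pool.Agent.B5.H40 (exists_normal to_poly uT add_load)
open Pool.Agent.B5.H16 (lsv_mn lsv_M)

theorem nE_cast (x : Eis) : ((nE x : ℕ) : ℝ) = ‖(Coef.emb x : ℂ)‖ ^ 2 := by
  have h1 : ((x.norm.natAbs : ℕ) : ℤ) = x.norm := by
    apply Int.natAbs_of_nonneg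
    have h := Eis.normSq_emb x
    have h2 : (0 : ℝ) ≤ (x.norm : ℝ) := by rw [← h]; positivity
    exact_mod_cast h2
  have h3 : ((nE x : ℕ) : ℝ) = (x.norm : ℝ) := by
    unfold nE
    rw [← Int.cast_natCast (R := ℝ), h1]
  rw [h3]
  exact (Eis.normSq_emb x).symm

/-- Row EV_LOD. -/
theorem evl (hVZ : VZS) (hM : MevS) (hA : A6S) (hE : EvRS) : EvlS := by
  intro N Q F hQ hF hnz hle hne
  obtain ⟨hN1, n, q, rfl, hqN, hqz⟩ := hQ
  obtain ⟨m, f, rfl, hf0⟩ := exists_normal F hF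
  obtain ⟨hnz', hle', hne'⟩ := to_poly n m q f hnz hle hne
  have hqcl : ∀ z : ℂ, ‖z‖ ≤ 1 → (q.map (Coef.emb : Eis →+* ℂ)).eval z ≠ 0 := by
    intro z hz
    rcases lt_or_eq_of_le hz with h1 | h1
    · exact hqz z h1
    · exact hnz' z h1
  have hlt := hVZ _ _ hqcl hle' hne'
  have hmn := fun u : Eisˣ => lsv_mn hE hM n m q f hqcl u
  have hMF := lsv_M hE hA m f hf0
  have hlt0 : ‖(Coef.emb (f.coeff 0) : ℂ)‖ < ‖(Coef.emb (q.coeff 0) : ℂ)‖ := by
    have h1 := hlt 0 (by simp)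
    rwa [← coeff_zero_eq_eval_zero, ← coeff_zero_eq_eval_zero, coeff_map, coeff_map] at h1
  refine ⟨n, m, q, f, rfl, rfl, hqz, hqN, hf0, ?_, ?_, ?_⟩
  · have h1 : ((nE (f.coeff 0) : ℕ) : ℝ) < ((nE (q.coeff 0) : ℕ) : ℝ) := by
      rw [nE_cast, nE_cast]
      exact pow_lt_pow_left₀ hlt0 (norm_nonneg _) two_ne_zero
    exact_mod_cast h1
  · rw [nE_cast]
    exact pow_le_pow_left₀ (norm_nonneg _) hMF 2
  · intro v
    have hu1 : ‖(Coef.emb (v : Eis) : ℂ)‖ = 1 :=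
      Pool.Agent.MP_b5021c_nt.Eis.norm_emb_unit v.isUnit
    have h1 := add_load q f n m v 0
    rw [Nat.cast_zero, add_zero, pow_zero, mul_one] at h1
    have hz : ZF ((q + C (v : Eis) * f).map Coef.emb) := by
      intro z hz h0
      rw [Polynomial.map_add, Polynomial.map_mul, map_C, eval_add, eval_mul, eval_C] at h0
      have h2 : (q.map (Coef.emb : Eis →+* ℂ)).eval z =
          -(Coef.emb (v : Eis) * (f.map (Coef.emb : Eis →+* ℂ)).eval z) :=
        eq_neg_of_add_eq_zero_left h0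
      have h3 := hlt z hz
      rw [h2, norm_neg, norm_mul, hu1, one_mul] at h3
      exact lt_irrefl _ h3
    have hc : (q + C (v : Eis) * f).coeff 0 = q.coeff 0 + v * f.coeff 0 := by
      rw [coeff_add, coeff_C_mul]
    refine ⟨h1, hz, ?_, ?_⟩
    · rw [h1]
      refine ⟨?_, n, q + C (v : Eis) * f, rfl, by rw [hc], hz⟩
      rw [← hc]
      apply Coef.one_le
      intro h5
      have h6 := hz 0 (by simp)
      rw [← coeff_zero_eq_eval_zero, coeff_map, h5, map_zero] at h6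
      exact h6 rfl
    · rw [hmn, div_pow, nE_cast, nE_cast]

end Pool.Agent.B5.H96
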